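import Pool.Agent.R856.FK9

set_option autoImplicit false

/-!
Problem MP_947403_nt, question Q1, in full (all three congruences hold for every prime `p > 3`).

Sketch.  The terms are those of the Gauss series `F(1/4, 3/4; 1; 8/9)`.

1. The family `F(-v, 1/2-v; -4v; 8/9)` satisfies, by a telescoping certificate, a first order
   recurrence under `v -> v+1`, also with the weight `10v+3-k`; hence it has closed forms for
   `v` a natural number and for `v` a natural number plus one half.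
2. At `v = -1/4` it is the given series.  Modulo `p^2` each term at `v = -1/4` is `3/2` times the term
   at `v = (p-1)/4` minus `1/2` times the term at `v = (3p-1)/4`, and these two series terminate.
3. For `p = 4m-1` the closed forms give the third congruence.  For `p = 4n+1` they give
   `A = (6/p) C(2n,n) (1 + p H(2n)/4)` and `B = A/2 + p/(2A)` modulo `p^2`.
4. The Jacobi sum `J(chi, chi^2)` of a quartic character, an element of norm `p` of `Z[i]`, reduces
   modulo `p^2` to `-(-1)^n C(2n,n) (1 + p H(2n)/4)`; its sign is fixed modulo `4`, and the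
   quadratic equation of `J` gives the two congruences.
-/

namespace Pool.Agent.Results.MP_947403_nt.QuestionOne

open Finset Pool.Agent.Helper857.Pad

/-- `A_p`: the sum over `k < p` of `C(2k,k) C(4k,2k) / 72^k`. -/
def sumA (p : ℕ) : ℚ := ∑ k ∈ range p, ((2 * k).choose k : ℚ) * ((4 * k).choose (2 * k) : ℚ) / 72 ^ k

/-- `B_p`: the sum over `k < p` of `(1 - k) C(2k,k) C(4k,2k) / 72^k`. -/
def sumB (p : ℕ) : ℚ :=
  ∑ k ∈ range p, (1 - (k : ℚ)) * (((2 * k).choose k : ℚ) * ((4 * k).choose (2 * k) : ℚ) / 72 ^ k)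

/-- `a - b` is `p^2` times a rational number with denominator coprime to `p`. -/
def CongSq (p : ℕ) (a b : ℚ) : Prop := ∃ q : ℚ, Nat.Coprime q.den p ∧ a - b = (p : ℚ) ^ 2 * q

/-- `x = 1 (mod 4)` and `p = x^2 + y^2` for some even integer `y`. -/
def IsX (p : ℕ) (x : ℤ) : Prop := x % 4 = 1 ∧ ∃ y : ℤ, Even y ∧ (p : ℤ) = x ^ 2 + y ^ 2

lemma cong_of_I {p : ℕ} [hp : Fact p.Prime] {a b : ℚ} (h : I p 2 (a - b)) : CongSq p a b := by
  obtain ⟨y, hy, e⟩ := h
  rw [mem_Zp] at hy
  exact ⟨y, ((Nat.Prime.coprime_iff_not_dvd hp.out).mpr hy).symm, e⟩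

/-- For every prime `p > 3` the three congruences of the problem hold. -/
theorem result (p : ℕ) [Fact p.Prime] (h3 : 3 < p) :
    (p % 4 = 1 → (∃! x : ℤ, IsX p x) ∧ ∀ x : ℤ, IsX p x →
      ¬ (p : ℤ) ∣ x ∧
      CongSq p (sumA p) ((legendreSym p 6 : ℚ) * (2 * x - p / (2 * x))) ∧
      CongSq p (sumB p) ((legendreSym p 6 : ℚ) * x)) ∧
    (p % 4 = 3 →
      CongSq p (sumA p) ((legendreSym p 6 : ℚ) * (2 * p / (3 * (((p + 1) / 2).choose ((p + 1) / 4) : ℚ))))) := by
  have hp : p.Prime := Fact.out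
  constructor
  · intro h4
    obtain ⟨x, y, hxy, hx, hy, hA, hB⟩ := Pool.Agent.R856.FK.full1 h3 h4
    have huniq : ∀ z : ℤ, IsX p z → z = x := by
      rintro z ⟨hz, w, -, hzw⟩
      exact Pool.Agent.R856.FK.uniq_x hp hzw hxy hz hx (by omega)
    have hX : IsX p x := ⟨hx, y, Int.even_iff.mpr hy, hxy⟩
    refine ⟨⟨x, hX, huniq⟩, ?_⟩
    intro z hz
    rw [huniq z hz]
    refine ⟨?_, cong_of_I hA, cong_of_I hB⟩
    intro hd
    have hpp : Prime (p : ℤ) := Nat.prime_iff_prime_int.mp hp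
    have hd2 : (p : ℤ) ∣ y := by
      have h1 : (p : ℤ) ∣ y ^ 2 := by
        have : y ^ 2 = p - x * x := by rw [hxy]; ring
        rw [this]; exact dvd_sub dvd_rfl (hd.mul_right x)
      exact hpp.dvd_of_dvd_pow h1
    obtain ⟨a, ha⟩ := hd
    obtain ⟨b, hb⟩ := hd2
    have h2 : (1 : ℤ) = p * (a ^ 2 + b ^ 2) := by
      have hp0 : (p : ℤ) ≠ 0 := by exact_mod_cast hp.ne_zero
      apply mul_left_cancel₀ hp0
      rw [mul_one]
      calc (p : ℤ) = x ^ 2 + y ^ 2 := hxy
        _ = p * (p * (a ^ 2 + b ^ 2)) := by rw [ha, hb]; ring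
    have h5 : (p : ℤ) ∣ 1 := Dvd.intro _ h2.symm
    have h6 : p ∣ 1 := by exact_mod_cast h5
    have := Nat.le_of_dvd (by norm_num) h6
    omega
  · intro h4
    exact cong_of_I (Pool.Agent.R856.FK.full2 h3 h4)

end Pool.Agent.Results.MP_947403_nt.QuestionOne
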